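import Pool.Agent.LE.StmtsQZ

/-!
# Squad LQZ, row UPA: the parts of `φ` and `Xh` (adapted from `Helper56_LQX/UPA.lean`)
-/

set_option autoImplicit false

open MeasureTheory ProbabilityTheory Function Filter

open scoped ENNReal BigOperators Topology NNReal ComplexOrder Matrix

noncomputable section

namespace Pool.Agent.LE.QZ.H2

open Pool.Agent.Anderson hiding box mem_box card_box
open Pool.Agent.Loc Pool.Agent.Mob Pool.Agent.Helper54.Bal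
  Pool.Agent.Helper96.EXP Pool.Agent.BED
open Pool.Agent.LE.MN Pool.Agent.LE.CL Pool.Agent.LE.IR Pool.Agent.LE.QD Pool.Agent.LE.QF

section scale

variable {X : Type} [Fintype X] [DecidableEq X]

omit [DecidableEq X] in
theorem qq_smul (G Θ : Matrix X X ℂ) (τ : ℝ) (φ : X → ℂ) (c : ℂ) [DecidableEq X] :
    QQ G (c • Θ) τ φ = c • QQ G Θ τ φ := by
  unfold QF.QQ
  rw [Matrix.smul_mul, smul_neg]

theorem lph_smul (G Θ : Matrix X X ℂ) (τ : ℝ) (φ μ : X → ℂ) (c : ℂ) (a : X) :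
    lph G (c • Θ) τ φ μ a = c * (τ * (Θ *ᵥ (EB G μ *ᵥ φ)) a) +
      c ^ 2 * ∑ c', (Θ *ᵥ (((τ : ℂ) • dB G c') *ᵥ fun y => QQ G Θ τ φ y c')) a := by
  unfold lph
  rw [qq_smul, Matrix.smul_mulVec, Finset.mul_sum]
  congr 1
  · rw [Pi.smul_apply, smul_eq_mul]
    ring
  · refine Finset.sum_congr rfl fun c' _ => ?_
    have e : (fun y => (c • QQ G Θ τ φ) y c') = c • fun y => QQ G Θ τ φ y c' := by
      funext y
      rfl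
    rw [e, Matrix.smul_mulVec, Matrix.mulVec_smul, Matrix.mulVec_smul, Pi.smul_apply,
      Pi.smul_apply, smul_eq_mul, smul_eq_mul]
    ring

/-- `PhbStmt` with a larger bound for the rows of `Θ` -/
theorem phb_h {C₀ P : ℝ} (hC₀ : 1 ≤ C₀)
    (phb : ∀ (X : Type) [Fintype X] [DecidableEq X]
      (G Θ : Matrix X X ℂ) (μ φ : X → ℂ) (𝒩 : X → Finset X) (κ τ δ N Λ : ℝ),
      GdM G μ 𝒩 κ τ δ N C₀ → (∀ a, ∑ b, ‖Θ a b‖ ≤ C₀) → (∀ a, ‖φ a‖ ≤ δ) →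
      (∀ a, ∑ b, KK G a b ^ 2 ≤ Λ) → δ ^ 2 * N + δ ^ 4 / κ ≤ Λ →
        (∀ a, ∑ c, ‖QQ G Θ τ φ a c‖ ^ 2 ≤ P * Λ) ∧
        ∀ a, ‖lph G Θ τ φ μ a‖ ≤ P * (δ ^ 2 / κ + Real.sqrt (Λ / κ)))
    (G Θ : Matrix X X ℂ) (μ φ : X → ℂ) (𝒩 : X → Finset X) (κ τ δ N Λ h : ℝ)
    (hG : GdM G μ 𝒩 κ τ δ N C₀) (hh : 1 ≤ h) (hT : ∀ a, ∑ b, ‖Θ a b‖ ≤ h)
    (hφ : ∀ a, ‖φ a‖ ≤ δ) (hL : ∀ a, ∑ b, KK G a b ^ 2 ≤ Λ)
    (hΛ : δ ^ 2 * N + δ ^ 4 / κ ≤ Λ) :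
    (∀ a, ∑ c, ‖QQ G Θ τ φ a c‖ ^ 2 ≤ h ^ 2 * (P * Λ)) ∧
      ∀ a, ‖lph G Θ τ φ μ a‖ ≤ 2 * h ^ 2 * (P * (δ ^ 2 / κ + Real.sqrt (Λ / κ))) := by
  have h0 : 0 < h := by linarith
  have hc0 : ((h : ℝ) : ℂ) ≠ 0 := by exact_mod_cast h0.ne'
  obtain ⟨Θ', hΘ'⟩ : ∃ Θ' : Matrix X X ℂ, Θ' = ((h : ℝ) : ℂ)⁻¹ • Θ := ⟨_, rfl⟩
  have hΘ : Θ = ((h : ℝ) : ℂ) • Θ' := by
    rw [hΘ', smul_smul, mul_inv_cancel₀ hc0, one_smul]
  have hrow : ∀ a, ∑ b, ‖Θ' a b‖ ≤ C₀ := fun a => by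
    have e : ∀ b, ‖Θ' a b‖ = h⁻¹ * ‖Θ a b‖ := fun b => by
      rw [hΘ', Matrix.smul_apply, norm_smul, norm_inv, Complex.norm_real,
        Real.norm_of_nonneg h0.le]
    simp only [e]
    rw [← Finset.mul_sum]
    have h1 : h⁻¹ * ∑ b, ‖Θ a b‖ ≤ h⁻¹ * h := mul_le_mul_of_nonneg_left (hT a) (by positivity)
    rw [inv_mul_cancel₀ h0.ne'] at h1
    linarith
  have hrow2 : ∀ a, ∑ b, ‖((-1 : ℂ) • Θ') a b‖ ≤ C₀ := fun a => by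
    have e : ∀ b, ‖((-1 : ℂ) • Θ') a b‖ = ‖Θ' a b‖ := fun b => by
      rw [Matrix.smul_apply, norm_smul, norm_neg, norm_one, one_mul]
    simp only [e]
    exact hrow a
  obtain ⟨q1, l1⟩ := phb X G Θ' μ φ 𝒩 κ τ δ N Λ hG hrow hφ hL hΛ
  obtain ⟨-, l2⟩ := phb X G ((-1 : ℂ) • Θ') μ φ 𝒩 κ τ δ N Λ hG hrow2 hφ hL hΛ
  constructor
  · intro a
    have e : ∀ c, ‖QQ G Θ τ φ a c‖ ^ 2 = h ^ 2 * ‖QQ G Θ' τ φ a c‖ ^ 2 := fun c => by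
      rw [hΘ, qq_smul, Matrix.smul_apply, norm_smul, Complex.norm_real,
        Real.norm_of_nonneg h0.le, mul_pow]
    simp only [e]
    rw [← Finset.mul_sum]
    exact mul_le_mul_of_nonneg_left (q1 a) (by positivity)
  · intro a
    obtain ⟨A, hA⟩ : ∃ A : ℂ, A = τ * (Θ' *ᵥ (EB G μ *ᵥ φ)) a := ⟨_, rfl⟩
    obtain ⟨B, hB⟩ : ∃ B : ℂ, B = ∑ c', (Θ' *ᵥ (((τ : ℂ) • dB G c') *ᵥ
      fun y => QQ G Θ' τ φ y c')) a := ⟨_, rfl⟩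
    obtain ⟨b, hb⟩ : ∃ b : ℝ, b = P * (δ ^ 2 / κ + Real.sqrt (Λ / κ)) := ⟨_, rfl⟩
    have e1 : lph G Θ' τ φ μ a = A + B := by
      have := lph_smul G Θ' τ φ μ 1 a
      rw [one_smul, one_mul, one_pow, one_mul, ← hA, ← hB] at this
      exact this
    have e2 : lph G ((-1 : ℂ) • Θ') τ φ μ a = -A + B := by
      rw [lph_smul, ← hA, ← hB]
      ring
    have e3 : lph G Θ τ φ μ a = h * A + h ^ 2 * B := by
      rw [hΘ, lph_smul, ← hA, ← hB]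
    have n1 := l1 a
    have n2' := l2 a
    rw [← hb] at n1 n2'
    rw [e1] at n1
    rw [e2] at n2'
    have hA1 : ‖A‖ ≤ b := by
      have e : A = (1 / 2 : ℂ) * ((A + B) - (-A + B)) := by ring
      have h3 : ‖A‖ ≤ 1 / 2 * (‖A + B‖ + ‖-A + B‖) := by
        rw [e, norm_mul]
        have e4 : ‖(1 / 2 : ℂ)‖ = 1 / 2 := by norm_num
        rw [e4]
        have e5 := norm_sub_le (A + B) (-A + B)
        have e6 : (1 / 2 : ℂ) * ((A + B) - (-A + B)) = A := by ring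
        simp only [e6]
        linarith
      linarith
    have hB1 : ‖B‖ ≤ b := by
      have h3 : ‖B‖ ≤ 1 / 2 * (‖A + B‖ + ‖-A + B‖) := by
        have e5 := norm_add_le (A + B) (-A + B)
        have e6 : (A + B) + (-A + B) = 2 * B := by ring
        rw [e6, norm_mul, Complex.norm_two] at e5
        linarith
      linarith
    have hb0 : 0 ≤ b := (norm_nonneg _).trans hA1
    rw [e3, ← hb]
    have h4 : ‖(h : ℂ) * A + (h : ℂ) ^ 2 * B‖ ≤ h * ‖A‖ + h ^ 2 * ‖B‖ := by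
      refine (norm_add_le _ _).trans ?_
      rw [norm_mul, norm_mul, norm_pow, Complex.norm_real, Real.norm_of_nonneg h0.le]
    have h5 : h * ‖A‖ ≤ h ^ 2 * b := by
      have h6 : h * ‖A‖ ≤ h * b := mul_le_mul_of_nonneg_left hA1 h0.le
      have h7 : h * b ≤ h ^ 2 * b := by
        apply mul_le_mul_of_nonneg_right _ hb0
        nlinarith
      linarith
    have h6 : h ^ 2 * ‖B‖ ≤ h ^ 2 * b := mul_le_mul_of_nonneg_left hB1 (by positivity)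
    linarith

end scale

variable {d M : ℕ} [NeZero M]

theorem cardT : (Fintype.card (Tor d M) : ℝ) = (M : ℝ) ^ d := by
  have h : Fintype.card (Tor d M) = M ^ d := by
    simp [Tor, ZMod.card]
  rw [h]
  push_cast
  rfl

/-- the constants at a point of the flow -/
theorem ls_bd (D : Dat d M) {c₁ C₁ c₀ κ t : ℝ} (hA : Adm D c₁ C₁ c₀)
    (hκ : κ = D.kp t) (h1 : D.η ≤ κ) (h2 : κ ≤ D.w) (hδ : D.δ ≤ 1) :
    κ * D.Ls t ≤ D.ch ∧ D.δ ^ 2 * D.N + D.δ ^ 4 / κ ≤ D.Ls t := by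
  have hη : 0 < D.η := hA.hT.2.1
  have hκ0 : 0 < κ := hη.trans_le h1
  obtain ⟨-, -, hL, hN, hπ⟩ := hA.hj
  have hδ0 := hA.hδ.1
  have hLs : D.Ls t = D.L₀ * (D.N + D.π₀ / κ + D.δ ^ 4 / κ) := by
    rw [hκ]
    rfl
  constructor
  · have e1 : κ * D.Ls t = D.L₀ * (D.N * κ + D.π₀ + D.δ ^ 4) := by
      rw [hLs]
      field_simp
    rw [e1]
    unfold Dat.ch
    apply mul_le_mul_of_nonneg_left _ (by linarith)
    have := mul_le_mul_of_nonneg_left h2 (by linarith : (0 : ℝ) ≤ D.N)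
    linarith
  · rw [hLs]
    have e2 : D.δ ^ 2 * D.N ≤ D.N := by
      have : D.δ ^ 2 ≤ 1 := pow_le_one₀ hδ0.le hδ
      nlinarith
    have e3 : 0 ≤ D.π₀ / κ := by positivity
    have e4 : 0 ≤ D.δ ^ 4 / κ := by positivity
    have e5 : D.N + D.π₀ / κ + D.δ ^ 4 / κ ≤ D.L₀ * (D.N + D.π₀ / κ + D.δ ^ 4 / κ) :=
      le_mul_of_one_le_left (by linarith) hL
    linarith

/-- the rate -/
theorem rate (D : Dat d M) {c₁ C₁ c₀ κ t Λ K ℓ γ : ℝ} (hA : Adm D c₁ C₁ c₀)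
    (hκ : κ = D.kp t) (h1 : D.η ≤ κ) (h2 : κ ≤ D.w) (hΛ : κ * Λ ≤ D.ch) (hΛ0 : 0 ≤ Λ)
    (hK : 0 ≤ K) (hℓ : ℓ ≤ K * (D.h ^ 2 * (D.δ ^ 2 / κ + Real.sqrt (Λ / κ)))) (hγ : γ ≤ K * (D.h ^ 4 * Λ)) :
    4 * D.j * ℓ / D.δ + 8 * D.j ^ 2 * γ / D.δ ^ 2 ≤ 8 * K * D.aN / κ := by
  have hη : 0 < D.η := hA.hT.2.1
  have hκ0 : 0 < κ := hη.trans_le h1
  obtain ⟨-, -, hL, hN, hπ⟩ := hA.hj
  obtain ⟨hδ0, -⟩ := hA.hδ
  have hw : 0 < D.w := hκ0.trans_le h2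
  have he : 0 < D.e₀ - 1 := by linarith [hA.he.1, hA.he.2.1]
  have hch : 0 ≤ D.ch := (mul_nonneg hκ0.le hΛ0).trans hΛ
  have hj : (0 : ℝ) ≤ D.j := Nat.cast_nonneg _
  have hh : 0 ≤ D.h := by
    unfold Dat.h
    positivity
  have hs : Real.sqrt (Λ / κ) ≤ Real.sqrt D.ch / κ := by
    have e : Real.sqrt D.ch / κ = Real.sqrt (D.ch / κ ^ 2) := by
      rw [Real.sqrt_div hch, Real.sqrt_sq hκ0.le]
    rw [e]
    apply Real.sqrt_le_sqrt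
    rw [div_le_div_iff₀ hκ0 (by positivity)]
    nlinarith
  have hΛ' : Λ ≤ D.ch / κ := by
    rw [le_div_iff₀ hκ0]
    linarith
  have e1 : 4 * D.j * ℓ / D.δ ≤ 4 * K * (D.j * (D.h ^ 2 * (D.δ + Real.sqrt D.ch / D.δ))) / κ := by
    have e2 : ℓ ≤ K * (D.h ^ 2 * (D.δ ^ 2 / κ + Real.sqrt D.ch / κ)) :=
      hℓ.trans (mul_le_mul_of_nonneg_left
        (mul_le_mul_of_nonneg_left (by linarith) (by positivity)) hK)
    have e3 : 4 * D.j * ℓ / D.δ ≤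
        4 * D.j * (K * (D.h ^ 2 * (D.δ ^ 2 / κ + Real.sqrt D.ch / κ))) / D.δ := by
      gcongr
    refine e3.trans (le_of_eq ?_)
    field_simp
  have e4 : 8 * D.j ^ 2 * γ / D.δ ^ 2 ≤ 8 * K * (D.j ^ 2 * (D.h ^ 4 * (D.ch / D.δ ^ 2))) / κ := by
    have e2 : γ ≤ K * (D.h ^ 4 * (D.ch / κ)) := hγ.trans (mul_le_mul_of_nonneg_left
      (mul_le_mul_of_nonneg_left hΛ' (by positivity)) hK)
    have e3 : 8 * D.j ^ 2 * γ / D.δ ^ 2 ≤ 8 * D.j ^ 2 * (K * (D.h ^ 4 * (D.ch / κ))) / D.δ ^ 2 := by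
      gcongr
    refine e3.trans (le_of_eq ?_)
    field_simp
  have e5 : D.j * (D.h ^ 2 * (D.δ + Real.sqrt D.ch / D.δ)) +
      D.j ^ 2 * (D.h ^ 4 * (D.ch / D.δ ^ 2)) ≤ D.aN := by
    unfold Dat.aN
    have a2 : 0 ≤ D.N * D.w := by positivity
    have a3 : 0 ≤ 1 / Real.sqrt D.L₀ := by positivity
    have a4 : 0 ≤ (D.j : ℝ) ^ 2 * (D.N * D.w + D.δ + 1 / Real.sqrt D.L₀ + (D.e₀ - 1)) := by
      positivity
    have a5 : 0 ≤ D.p * D.δ + D.p ^ 2 * (D.N * D.w + D.δ ^ 2 + D.π₀) := by positivity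
    nlinarith
  have e6 : 0 ≤ D.j * (D.h ^ 2 * (D.δ + Real.sqrt D.ch / D.δ)) := by positivity
  have e7 : 0 ≤ (D.j : ℝ) ^ 2 * (D.h ^ 4 * (D.ch / D.δ ^ 2)) := by positivity
  have e8 : 4 * K * (D.j * (D.h ^ 2 * (D.δ + Real.sqrt D.ch / D.δ))) / κ +
      8 * K * (D.j ^ 2 * (D.h ^ 4 * (D.ch / D.δ ^ 2))) / κ ≤ 8 * K * D.aN / κ := by
    rw [← add_div]
    gcongr
    nlinarith [mul_nonneg hK e6, mul_nonneg hK e7, mul_le_mul_of_nonneg_left e5 hK]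
  linarith

/-- UPA -/
theorem upa (jtp : JtpStmt) (jtx : JtxStmt) (phb : PhbStmt) (xhb : XhbStmt) (pwu : PwuStmt)
    (rsj : RsjStmt) : UpaStmt := by
  intro c₁ C₁ C₀ hc₁ hC₁ hC₀
  obtain ⟨P, hP, phb⟩ := phb C₀ hC₀
  obtain ⟨Q, hQ, xhb⟩ := xhb C₀ hC₀
  have hP2 : (1 : ℝ) ≤ P ^ 2 := one_le_pow₀ hP
  have hPQ : (1 : ℝ) ≤ Q * P ^ 2 := one_le_mul_of_one_le_of_one_le hQ hP2
  refine ⟨8 * (16 * Q * P ^ 2), by linarith, ?_⟩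
  intro d M _ D c₀ κ τ q hA hq0 hqT hg
  obtain ⟨hκe, hτe, h1, h2, hτ0, hτ1, hτ2⟩ := hg.hκ
  have hη : 0 < D.η := hA.hT.2.1
  have hκ0 : 0 < κ := hη.trans_le h1
  have hδ0 : 0 < D.δ := hA.hδ.1
  have hδ1 : D.δ ≤ 1 := by
    have h3 := hg.hG.hδ.2.1
    nlinarith
  obtain ⟨hΛ, hΛ2⟩ := ls_bd D hA hκe h1 h2 hδ1
  obtain ⟨Λ, hΛe⟩ : ∃ Λ, Λ = D.Ls q.1 := ⟨_, rfl⟩
  rw [← hΛe] at hΛ hΛ2
  have hN : 0 ≤ D.N := by linarith [hA.hj.2.2.2.1]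
  have hΛ0 : 0 ≤ Λ := le_trans (by positivity) hΛ2
  have hr := rsj d M D c₁ C₁ c₀ q hc₁ hA (hκe ▸ hκ0)
  have hJ := hr.1
  rw [← hτe] at hJ
  have hY : D.Y q = (τ : ℂ) • BB (D.G q) := by
    rw [hτe]
    rfl
  -- the jets
  have j1 := jtp (Tor d M) q D.G D.ta (D.G q) (D.Th q) D.m τ (D.mu q) hJ rfl
    (hY ▸ hg.hu) (by unfold Dat.Th; rw [hY])
  have hL : ∀ a, ∑ b, KK (D.G q) a b ^ 2 ≤ Λ := fun a => hΛe ▸ hg.hL a
  have hh1 : 1 ≤ D.h := by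
    unfold Dat.h
    have : (0 : ℝ) ≤ D.k := Nat.cast_nonneg _
    linarith
  obtain ⟨b1, b2⟩ := phb_h hC₀ phb (D.G q) (D.Th q) (D.mu q) (D.ph q) D.nr κ τ D.δ D.N Λ D.h
    hg.hG hh1 hg.hT hg.hφ hL hΛ2
  have hh2 : 1 ≤ D.h ^ 2 := one_le_pow₀ hh1
  have hh4 : D.h ^ 2 ≤ D.h ^ 4 := pow_le_pow_right₀ hh1 (by norm_num)
  have j1' : ∀ a, HJ (fun r => D.ph r a) q (D.ph q a)
      (fun c => QQ (D.G q) (D.Th q) τ (D.ph q) a c)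
      (lph (D.G q) (D.Th q) τ (D.ph q) (D.mu q) a) := j1
  have j2 := jtx (Tor d M) q D.G D.ta (D.G q) D.G0 (QQ (D.G q) (D.Th q) τ (D.ph q)) D.m τ D.ph
    (D.mu q) (D.ph q) (lph (D.G q) (D.Th q) τ (D.ph q) (D.mu q)) hJ rfl j1' hg.hμ
  obtain ⟨Λ', hΛ'⟩ : ∃ Λ', Λ' = 16 * P ^ 2 * (D.h ^ 4 * Λ) := ⟨_, rfl⟩
  have hΛh : Λ ≤ D.h ^ 4 * Λ := le_mul_of_one_le_left hΛ0 (by linarith)
  have hΛh2 : D.h ^ 2 * Λ ≤ D.h ^ 4 * Λ := mul_le_mul_of_nonneg_right hh4 hΛ0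
  have hΛh0 : 0 ≤ D.h ^ 4 * Λ := hΛ0.trans hΛh
  have hΛΛ : Λ ≤ Λ' := by
    rw [hΛ']
    have : D.h ^ 4 * Λ ≤ 16 * P ^ 2 * (D.h ^ 4 * Λ) :=
      le_mul_of_one_le_left hΛh0 (by linarith)
    linarith
  have hsq : Real.sqrt (Λ' / κ) = 4 * P * (D.h ^ 2 * Real.sqrt (Λ / κ)) := by
    have e : Λ' / κ = (4 * P * D.h ^ 2) ^ 2 * (Λ / κ) := by
      rw [hΛ']
      ring
    rw [e, Real.sqrt_mul (by positivity), Real.sqrt_sq (by positivity)]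
    ring
  have hsq2 : D.δ ^ 2 / κ ≤ Real.sqrt (Λ / κ) := by
    apply Real.le_sqrt_of_sq_le
    have e : (D.δ ^ 2 / κ) ^ 2 = D.δ ^ 4 / κ / κ := by
      field_simp
    rw [e]
    gcongr
    have : 0 ≤ D.δ ^ 2 * D.N := by positivity
    linarith
  have hs0 : 0 ≤ Real.sqrt (Λ / κ) := Real.sqrt_nonneg _
  have hd0 : 0 ≤ D.δ ^ 2 / κ := by positivity
  obtain ⟨b3, b4⟩ := xhb (Tor d M) (D.G q) (QQ (D.G q) (D.Th q) τ (D.ph q)) (D.mu q) (D.ph q)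
    (lph (D.G q) (D.Th q) τ (D.ph q) (D.mu q)) D.nr κ τ D.δ D.N Λ' hg.hG hg.hφ
    (fun a => (hL a).trans hΛΛ) (hΛ2.trans hΛΛ)
    (fun a => (b1 a).trans (by
      rw [hΛ']
      have h3 : D.h ^ 2 * (P * Λ) = P * (D.h ^ 2 * Λ) := by ring
      have h4 : P * (D.h ^ 2 * Λ) ≤ P * (D.h ^ 4 * Λ) :=
        mul_le_mul_of_nonneg_left hΛh2 (by linarith)
      have : P * (D.h ^ 4 * Λ) ≤ P ^ 2 * (D.h ^ 4 * Λ) := by
        apply mul_le_mul_of_nonneg_right _ hΛh0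
        nlinarith
      have h5 : 16 * P ^ 2 * (D.h ^ 4 * Λ) ≤ C₀ * (16 * P ^ 2 * (D.h ^ 4 * Λ)) :=
        le_mul_of_one_le_left (by positivity) hC₀
      have h6 : 0 ≤ P ^ 2 * (D.h ^ 4 * Λ) := by positivity
      linarith))
    (fun a => (b2 a).trans (by
      rw [hsq]
      have h5 : D.δ ^ 2 / κ + 4 * P * (D.h ^ 2 * Real.sqrt (Λ / κ)) ≤
        C₀ * (D.δ ^ 2 / κ + 4 * P * (D.h ^ 2 * Real.sqrt (Λ / κ))) :=
        le_mul_of_one_le_left (by positivity) hC₀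
      have h6 : 2 * D.h ^ 2 * (P * (D.δ ^ 2 / κ + Real.sqrt (Λ / κ))) ≤
          2 * D.h ^ 2 * (P * (Real.sqrt (Λ / κ) + Real.sqrt (Λ / κ))) := by
        gcongr
      have h7 : 2 * D.h ^ 2 * (P * (Real.sqrt (Λ / κ) + Real.sqrt (Λ / κ))) =
        4 * P * (D.h ^ 2 * Real.sqrt (Λ / κ)) := by ring
      linarith))
  have hℓ0 : ∀ K : ℝ, 0 ≤ K → 0 ≤ K * (D.δ ^ 2 / κ + Real.sqrt (Λ / κ)) := fun K hK =>
    mul_nonneg hK (by linarith)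
  have hj1 : 1 ≤ D.j := by linarith [hA.hj.1]
  -- `U1`
  obtain ⟨g1, l1, J1, hl1⟩ := pwu (Tor d M) q (Tor d M) (fun a r => D.ph r a) (D.ph q)
    (lph (D.G q) (D.Th q) τ (D.ph q) (D.mu q)) (fun a c => QQ (D.G q) (D.Th q) τ (D.ph q) a c) D.δ
    (2 * D.h ^ 2 * (P * (D.δ ^ 2 / κ + Real.sqrt (Λ / κ)))) (D.h ^ 2 * (P * Λ)) D.j hδ0
    (mul_nonneg (by positivity) (hℓ0 P (by linarith)))
    (by positivity) hj1 j1' b2 b1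
  have J1' : HJ D.U1 q (D.U1 q) g1 l1 := J1
  -- `U2`
  have eU2 : (fun r => ∑ k : Tor d M × Tor d M, (‖D.Xh r k.1 k.2‖ ^ 2 / D.δ ^ 2) ^ D.j) =
      D.U2 := by
    funext r
    rw [Fintype.sum_prod_type]
    rfl
  obtain ⟨g2, l2, J2, hl2⟩ := pwu (Tor d M) q (Tor d M × Tor d M)
    (fun k r => D.Xh r k.1 k.2) (fun k => D.Xh q k.1 k.2)
    (fun k => lX (D.G q) (QQ (D.G q) (D.Th q) τ (D.ph q)) τ (D.ph q) (D.mu q)
      (lph (D.G q) (D.Th q) τ (D.ph q) (D.mu q)) k.1 k.2)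
    (fun k c => dX (D.G q) (QQ (D.G q) (D.Th q) τ (D.ph q)) τ (D.ph q) c k.1 k.2) D.δ
    (Q * (D.δ ^ 2 / κ + Real.sqrt (Λ' / κ))) (Q * Λ') D.j hδ0
    (mul_nonneg (by linarith) (by rw [hsq]; positivity))
    (mul_nonneg (by linarith) (hΛ0.trans hΛΛ)) hj1
    (fun k => by
      have := j2 k.1 k.2
      rw [hτe] at this
      rw [hτe]
      exact this) (fun k => b4 k.1 k.2) (fun k => b3 k.1 k.2)
  rw [eU2] at J2
  have eU2q : ∑ k : Tor d M × Tor d M, (‖D.Xh q k.1 k.2‖ ^ 2 / D.δ ^ 2) ^ D.j = D.U2 q :=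
    congrFun eU2 q
  rw [eU2q] at J2 hl2
  have hM : (1 : ℝ) ≤ (M : ℝ) ^ d := one_le_pow₀ (by exact_mod_cast Nat.one_le_iff_ne_zero.2 (NeZero.ne M))
  have r1 := rate D (K := 2 * P) (ℓ := 2 * D.h ^ 2 * (P * (D.δ ^ 2 / κ + Real.sqrt (Λ / κ))))
    (γ := D.h ^ 2 * (P * Λ)) hA hκe h1 h2 hΛ hΛ0 (by linarith) (le_of_eq (by ring)) (by
      have h3 : D.h ^ 2 * (P * Λ) = P * (D.h ^ 2 * Λ) := by ring
      have h4 : P * (D.h ^ 2 * Λ) ≤ P * (D.h ^ 4 * Λ) :=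
        mul_le_mul_of_nonneg_left hΛh2 (by linarith)
      have h5 : 0 ≤ P * (D.h ^ 4 * Λ) := by positivity
      have h6 : 2 * P * (D.h ^ 4 * Λ) = 2 * (P * (D.h ^ 4 * Λ)) := by ring
      linarith)
  have r2 := rate D (K := 16 * Q * P ^ 2) (ℓ := Q * (D.δ ^ 2 / κ + Real.sqrt (Λ' / κ)))
    (γ := Q * Λ') hA hκe h1 h2 hΛ hΛ0 (by positivity) (by
      rw [hsq]
      have e0 : D.δ ^ 2 / κ ≤ D.h ^ 2 * (D.δ ^ 2 / κ) := le_mul_of_one_le_left hd0 hh2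
      have e1 : D.h ^ 2 * (D.δ ^ 2 / κ) ≤ 16 * P ^ 2 * (D.h ^ 2 * (D.δ ^ 2 / κ)) :=
        le_mul_of_one_le_left (by positivity) (by linarith)
      have e2 : 4 * P * (D.h ^ 2 * Real.sqrt (Λ / κ)) ≤
          16 * P ^ 2 * (D.h ^ 2 * Real.sqrt (Λ / κ)) := by
        apply mul_le_mul_of_nonneg_right _ (by positivity)
        nlinarith
      have e3 : 16 * Q * P ^ 2 * (D.h ^ 2 * (D.δ ^ 2 / κ + Real.sqrt (Λ / κ))) =
        Q * (16 * P ^ 2 * (D.h ^ 2 * (D.δ ^ 2 / κ)) +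
          16 * P ^ 2 * (D.h ^ 2 * Real.sqrt (Λ / κ))) := by ring
      rw [e3]
      exact mul_le_mul_of_nonneg_left (by linarith) (by linarith)) (by
      rw [hΛ']
      exact le_of_eq (by ring))
  have hPP : 2 * P ≤ 16 * Q * P ^ 2 := by
    have : P ≤ P ^ 2 := by nlinarith
    have : P ^ 2 ≤ Q * P ^ 2 := le_mul_of_one_le_left (by positivity) hQ
    linarith
  have haN : 0 ≤ D.aN / κ := by
    have h3 := rate D (K := 1) (ℓ := 0) (γ := 0) hA hκe h1 h2 hΛ hΛ0 zero_le_one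
      (by positivity) (by linarith)
    have h4 : 8 * 1 * D.aN / κ = 8 * (D.aN / κ) := by ring
    rw [h4] at h3
    simp only [mul_zero, zero_div, add_zero] at h3
    linarith
  have r1' : 4 * D.j * (2 * D.h ^ 2 * (P * (D.δ ^ 2 / κ + Real.sqrt (Λ / κ)))) / D.δ +
      8 * D.j ^ 2 * (D.h ^ 2 * (P * Λ)) / D.δ ^ 2 ≤ 8 * (16 * Q * P ^ 2) * D.aN / κ := by
    refine r1.trans ?_
    have e1 : 8 * (2 * P) * D.aN / κ = 8 * (2 * P) * (D.aN / κ) := by ring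
    have e2 : 8 * (16 * Q * P ^ 2) * D.aN / κ = 8 * (16 * Q * P ^ 2) * (D.aN / κ) := by ring
    rw [e1, e2]
    exact mul_le_mul_of_nonneg_right (by linarith) haN
  refine ⟨J1'.sm, J2.sm, ?_, ?_⟩
  · rw [J1'.ge]
    refine hl1.trans ?_
    have e1 : ∑ k : Tor d M, (‖D.ph q k‖ ^ 2 / D.δ ^ 2) ^ D.j = D.U1 q := rfl
    rw [e1, cardT]
    have e2 : 0 ≤ D.U1 q := by
      rw [← e1]
      positivity
    have e3 : (M : ℝ) ^ d ≤ ((M : ℝ) ^ d) ^ 2 := by nlinarith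
    have e4 : (M : ℝ) ^ d * (1 / 4) ^ D.j ≤ ((M : ℝ) ^ d) ^ 2 * (1 / 4) ^ D.j :=
      mul_le_mul_of_nonneg_right e3 (by positivity)
    have e5 : 0 ≤ (M : ℝ) ^ d * (1 / 4) ^ D.j := by positivity
    refine (mul_le_mul_of_nonneg_right r1' (by linarith)).trans ?_
    refine mul_le_mul_of_nonneg_left (by linarith) ?_
    have e6 : 8 * (16 * Q * P ^ 2) * D.aN / κ = 8 * (16 * Q * P ^ 2) * (D.aN / κ) := by ring
    rw [e6]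
    positivity
  · rw [J2.ge]
    refine hl2.trans ?_
    have e1 : ((Fintype.card (Tor d M × Tor d M) : ℕ) : ℝ) = ((M : ℝ) ^ d) ^ 2 := by
      rw [Fintype.card_prod, Nat.cast_mul, cardT, sq]
    rw [e1]
    have e2 : 0 ≤ D.U2 q := by
      rw [← eU2q]
      positivity
    exact mul_le_mul_of_nonneg_right r2 (by positivity)

end Pool.Agent.LE.QZ.H2
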